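import Pool.Agent.W_MP_c26d8e_gt.Final

set_option autoImplicit false

namespace Pool.Agent.Results.MP_c26d8e_gt.FailsUnderCH

open Cardinal

/-- Under the continuum hypothesis there is a Tychonoff space `X` all of whose finite powers are
hereditarily Lindelöf such that no set `Z ⊆ ℝ^X` (product topology) containing all continuous
functions on `X` is Lindelöf. -/
theorem result (ch : (𝔠 : Cardinal.{0}) = ℵ₁) :
    ∃ (X : Type) (_ : TopologicalSpace X), T35Space X ∧
      (∀ n : ℕ, HereditarilyLindelofSpace (Fin n → X)) ∧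
      ∀ Z : Set (X → ℝ), {f : X → ℝ | Continuous f} ⊆ Z → ¬ IsLindelof Z :=
  Pool.Agent.W_MP_c26d8e_gt.main ch

end Pool.Agent.Results.MP_c26d8e_gt.FailsUnderCH
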