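import Pool.Agent.W_c26d8e_h88.HL
import Pool.Agent.W_c26d8e_h65.NoLind
import Pool.Agent.W_c26d8e_h65.CR
import Pool.Agent.W_c26d8e_h65.Reals

/-!
# A model of ZFC in which the positive statement of Q1 fails (problem MP_c26d8e_gt)

`Fml`, `Fml.Sat`, `IsZFC` (first-order formulas, satisfaction, models of ZFC) are defined in
`Pool.Agent.W_MP_0bf392_lc.Defs`, the general set-theoretic notions of a structure `(M, E)` in
`Pool.Agent.W_8dd142_h88.Defs`, the topological notions in `Pool.Agent.W_c26d8e_h88.Defs`. The
model is the quotient of the Boolean-valued universe over the regular open algebra of the finite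
approximations of the space (a forcing with the countable chain condition) by an arbitrary
ultrafilter.
-/

namespace Pool.Agent.Results.MP_c26d8e_gt.ModelCounterexample

open IM TKF BVM CPF

/-- There is a model `(M, E)` of ZFC with a Tychonoff space `(A, τ)` all of whose finite powers
are hereditarily Lindelöf such that no set `Z` of maps from `A` to the real line `(R, ρ)` which
contains all continuous maps is Lindelöf in the topology of pointwise convergence. All notions are
those of the model. -/
theorem result : ∃ (M : Type 1) (E : M → M → Prop), IsZFC E ∧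
    ∃ w A τ, IsOmega E w ∧ IsHaus E A τ ∧ PowHL E w A τ ∧
      (∃ R ρ, IsReals E w R ρ) ∧ ∀ R ρ, IsReals E w R ρ → IsCR E A τ R ρ ∧
        ∀ Z, (∀ f, E f Z → IsMap E f A R) → (∀ f, IsContin E A τ R ρ f → E f Z) →
          ¬ IsLind E w ρ Z := by
  obtain ⟨I, ⟨hI⟩⟩ := exists_idx
  obtain ⟨lam, hl, _⟩ := exists_uf (Cond.triv : Cond I)
  obtain ⟨τ, hτ⟩ := exists_tau (I := I) hl
  exact ⟨X hl, E hl, isZFC hl, val hl (omB _), val hl (nA I), τ, isOmega_omB, isHaus_tau hτ,
    powHL hl hτ, exists_reals (RP I) hl, fun R ρ hR => ⟨isCR hl hτ hR,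
      fun Z hZ1 hZ2 => no_lind hl hτ hR hZ1 hZ2⟩⟩

end Pool.Agent.Results.MP_c26d8e_gt.ModelCounterexample
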